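import Pool.Agent.Lib.MP_2b3d4e_al.Tr.Sharp

set_option autoImplicit false

namespace Pool.Agent.Results.MP_2b3d4e_al.Factorization

/-- The residue class `r(m) = {r + k m : k ∈ ℤ}`. -/
def resClass (r m : ℤ) : Set ℤ := {n : ℤ | ∃ k : ℤ, n = r + k * m}

/-- `τ` is a class transposition: for two disjoint residue classes `r₁(m₁)`, `r₂(m₂)` with
`0 ≤ rᵢ < mᵢ` it swaps `r₁ + k m₁` and `r₂ + k m₂` for every `k` and fixes all other integers. -/
def IsClassTransposition (τ : Equiv.Perm ℤ) : Prop :=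
  ∃ r₁ m₁ r₂ m₂ : ℤ, 0 ≤ r₁ ∧ r₁ < m₁ ∧ 0 ≤ r₂ ∧ r₂ < m₂ ∧
    Disjoint (resClass r₁ m₁) (resClass r₂ m₂) ∧
    (∀ k : ℤ, τ (r₁ + k * m₁) = r₂ + k * m₂) ∧
    (∀ k : ℤ, τ (r₂ + k * m₂) = r₁ + k * m₁) ∧
    ∀ n : ℤ, n ∉ resClass r₁ m₁ ∪ resClass r₂ m₂ → τ n = n

/-- A round: a product of finitely many class transpositions of which no two move the same
integer. -/
def IsRound (t : Equiv.Perm ℤ) : Prop :=
  ∃ l : List (Equiv.Perm ℤ), (∀ τ ∈ l, IsClassTransposition τ) ∧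
    l.Pairwise (fun τ τ' => ∀ n : ℤ, τ n = n ∨ τ' n = n) ∧ l.prod = t

/-- `σ` is residue-class-wise affine: for some `m ≥ 1` it agrees on each class `r(m)`,
`0 ≤ r < m`, with an affine map with rational coefficients. -/
def IsRcwa (σ : Equiv.Perm ℤ) : Prop :=
  ∃ m : ℤ, 1 ≤ m ∧ ∀ r : ℤ, 0 ≤ r → r < m →
    ∃ α β : ℚ, ∀ n ∈ resClass r m, ((σ n : ℤ) : ℚ) = α * (n : ℚ) + β

theorem mem_resClass_iff (r m n : ℤ) : n ∈ resClass r m ↔ Int.ModEq m n r := by
  constructor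
  · rintro ⟨k, rfl⟩
    exact Int.modEq_iff_dvd.2 ⟨-k, by ring⟩
  · intro h
    obtain ⟨c, hc⟩ := Int.modEq_iff_dvd.1 h
    exact ⟨-c, by linarith⟩

theorem isCT_iff (τ : Equiv.Perm ℤ) :
    IsClassTransposition τ ↔ τ ∈ Pool.Agent.Lib.MP_2b3d4e_al.gens := by
  constructor
  · rintro ⟨r₁, m₁, r₂, m₂, h1, h2, h3, h4, h5, h6, h7, h8⟩
    refine ⟨r₁, m₁, r₂, m₂, h1, h2, h3, h4, ?_, ?_, ?_⟩
    · rintro n ⟨ha, hb⟩
      exact Set.disjoint_left.1 h5 ((mem_resClass_iff _ _ _).2 ha) ((mem_resClass_iff _ _ _).2 hb)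
    · intro k
      rw [mul_comm m₁ k, mul_comm m₂ k]
      exact ⟨h6 k, h7 k⟩
    · intro n ha hb
      refine h8 n ?_
      rintro (h | h)
      · exact ha ((mem_resClass_iff _ _ _).1 h)
      · exact hb ((mem_resClass_iff _ _ _).1 h)
  · rintro ⟨r₁, m₁, r₂, m₂, h1, h2, h3, h4, h5, h6, h7⟩
    refine ⟨r₁, m₁, r₂, m₂, h1, h2, h3, h4, ?_, ?_, ?_, ?_⟩
    · exact Set.disjoint_left.2 fun n ha hb =>
        h5 n ⟨(mem_resClass_iff _ _ _).1 ha, (mem_resClass_iff _ _ _).1 hb⟩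
    · intro k
      rw [mul_comm k m₁, mul_comm k m₂]
      exact (h6 k).1
    · intro k
      rw [mul_comm k m₁, mul_comm k m₂]
      exact (h6 k).2
    · intro n hn
      refine h7 n (fun h => hn (Or.inl ?_)) (fun h => hn (Or.inr ?_))
      · exact (mem_resClass_iff _ _ _).2 h
      · exact (mem_resClass_iff _ _ _).2 h

theorem isRound_iff (t : Equiv.Perm ℤ) :
    IsRound t ↔ Pool.Agent.Lib.MP_2b3d4e_al.Tr.IsRd t :=
  exists_congr fun _ => and_congr (forall₂_congr fun τ _ => isCT_iff τ) Iff.rfl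

theorem isG_iff (σ : Equiv.Perm ℤ) :
    Pool.Agent.Lib.MP_2b3d4e_al.IsG σ ↔
      (IsRcwa σ ∧ σ '' {n : ℤ | 0 ≤ n} = {n : ℤ | 0 ≤ n}) := by
  refine and_congr ?_ ?_
  · constructor
    · rintro ⟨m, hm, h⟩
      refine ⟨m, hm, fun r _ _ => ?_⟩
      obtain ⟨a, b, hab⟩ := h r
      exact ⟨a, b, fun n hn => hab n ((mem_resClass_iff _ _ _).1 hn)⟩
    · rintro ⟨m, hm, h⟩
      have hm0 : 0 < m := hm
      refine ⟨m, hm0, fun r => ?_⟩
      obtain ⟨a, b, hab⟩ := h (r % m) (Int.emod_nonneg _ hm0.ne') (Int.emod_lt_of_pos _ hm0)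
      refine ⟨a, b, fun n hn => hab n ((mem_resClass_iff _ _ _).2 ?_)⟩
      exact hn.trans (Int.mod_modEq r m).symm
  · constructor
    · intro h
      ext n
      constructor
      · rintro ⟨x, hx, rfl⟩
        exact (h x).2 hx
      · intro hn
        refine ⟨σ.symm n, (h _).1 ?_, by simp⟩
        simpa using hn
    · intro h n
      constructor
      · intro hn
        have : σ n ∈ σ '' {n : ℤ | 0 ≤ n} := by rw [h]; exact hn
        obtain ⟨x, hx, hxn⟩ := this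
        rw [← σ.injective hxn]
        exact hx
      · intro hn
        have : σ n ∈ σ '' {n : ℤ | 0 ≤ n} := ⟨n, hn, rfl⟩
        rw [h] at this
        exact this

open Pool.Agent.Lib.MP_2b3d4e_al Pool.Agent.Lib.MP_2b3d4e_al.Tr in
/-- The residue-class-wise affine permutations of `ℤ` that map `ℕ₀` onto `ℕ₀` are exactly the
products of at most `k` rounds of class transpositions if and only if `k ≥ 3`. -/
theorem result (k : ℕ) :
    (∀ σ : Equiv.Perm ℤ, (IsRcwa σ ∧ σ '' {n : ℤ | 0 ≤ n} = {n : ℤ | 0 ≤ n}) ↔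
      ∃ l : List (Equiv.Perm ℤ), l.length ≤ k ∧ (∀ t ∈ l, IsRound t) ∧ l.prod = σ) ↔
    3 ≤ k := by
  simp only [← isG_iff, ← mem_CT_iff, isRound_iff]
  constructor
  · intro h
    by_contra hk
    obtain ⟨l, h1, h2, h3⟩ := (h exP).1 exP_mem
    have one : Aff (1 : Equiv.Perm ℤ) := (mem_iff.1 CT.one_mem).1
    match l, h1, h2, h3 with
    | [], _, _, h3 => exact exP_not_two one (mul_one 1) (mul_one 1) (by simpa using h3.symm)
    | [a], _, h2, h3 =>
      exact exP_not_two one (mul_one 1) (h2 a (by simp)).sq (by simpa using h3.symm)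
    | [a, b], _, h2, h3 =>
      exact exP_not_two (mem_iff.1 (h2 a (by simp)).mem).1 (h2 a (by simp)).sq
        (h2 b (by simp)).sq (by simpa using h3.symm)
    | _ :: _ :: _ :: _, h1, _, _ => exact hk (by simp only [List.length_cons] at h1; omega)
  · intro hk σ
    constructor
    · intro hσ
      obtain ⟨a, b, c, ha, hb, hc, rfl⟩ := three_rounds hσ
      refine ⟨[a, b, c], hk, ?_, by simp [mul_assoc]⟩
      simp [ha, hb, hc]
    · rintro ⟨l, -, h2, rfl⟩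
      exact Subgroup.list_prod_mem _ fun t ht => (h2 t ht).mem

end Pool.Agent.Results.MP_2b3d4e_al.Factorization
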